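import Pool.Agent.helper73.AD.Basic

/-!
Module EL of project ad: lower bound of eps by the angle defects.
-/

namespace Pool.Agent.helper73.AD

open scoped BigOperators Topology

/-- the constant -/
noncomputable def EL_C (l : ℝ) : ℝ :=
  ((Real.cosh (l / 2) + 1) / Real.sinh (l / 2) + 1) / Real.sinh (l / 2)

theorem EL_C_pos {l : ℝ} (hl : 0 < l) : 0 < EL_C l := by
  have hS : 0 < Real.sinh (l / 2) := Real.sinh_pos_iff.mpr (by linarith)
  have hc : 0 < Real.cosh (l / 2) := Real.cosh_pos _
  unfold EL_C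
  positivity

theorem EL_core (l x y P Wm s : ℝ) (hl : 0 < l) (hx : 0 < x) (hxy : x ≤ y) (hP : 1 < P)
    (hPc : P ≤ Real.cosh (l / 2)) (hprod : x * y = P ^ 2) (hW : 0 ≤ Wm)
    (hF : 2 * Real.cosh (l / 2) = x + y + Wm)
    (hs : Real.exp (-(l / 2)) + Real.sinh (l / 2) * s ≤ x + Wm) :
    s ≤ EL_C l * ((P - 1) + Wm) := by
  have hS : 0 < Real.sinh (l / 2) := Real.sinh_pos_iff.mpr (by linarith)
  set S := Real.sinh (l / 2) with hSdef
  set c := Real.cosh (l / 2) with hcdef
  set a := Real.exp (-(l / 2)) with hadef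
  set b := Real.exp (l / 2) with hbdef
  have hab : a * b = 1 := by
    rw [hadef, hbdef, ← Real.exp_add]; simp
  have hc2 : c = (b + a) / 2 := by rw [hcdef, Real.cosh_eq]
  have hS2 : S = (b - a) / 2 := by rw [hSdef, Real.sinh_eq]
  have hxP : x ≤ P := by
    by_contra h
    push Not at h
    nlinarith
  have hbx : S ≤ b - x := by rw [hS2]; linarith
  have hkey : (x - a) * (b - x) = P ^ 2 - 1 + x * Wm := by
    have h1 : x * (b + a) = x * (x + y + Wm) := by rw [← hF, hc2]; ring
    nlinarith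
  have hpos : 0 < P ^ 2 - 1 + x * Wm := by
    have := mul_nonneg hx.le hW
    nlinarith
  have hxa : 0 < x - a := by
    by_contra h
    push Not at h
    have : (x - a) * (b - x) ≤ 0 := mul_nonpos_of_nonpos_of_nonneg h (by linarith)
    linarith
  have h1 : (x - a) * S ≤ (c + 1) * ((P - 1) + Wm) := by
    have h2 : (x - a) * S ≤ (x - a) * (b - x) := by gcongr
    have h3 : P ^ 2 - 1 + x * Wm ≤ (c + 1) * ((P - 1) + Wm) := by
      have h4 : P ^ 2 - 1 ≤ (c + 1) * (P - 1) := by nlinarith
      have h5 : x * Wm ≤ (c + 1) * Wm := by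
        apply mul_le_mul_of_nonneg_right _ hW
        linarith
      linarith
    linarith
  have h6 : x - a ≤ (c + 1) / S * ((P - 1) + Wm) := by
    rw [div_mul_eq_mul_div, le_div_iff₀ hS]; exact h1
  have h7 : S * s ≤ ((c + 1) / S + 1) * ((P - 1) + Wm) := by
    have : Wm ≤ (P - 1) + Wm := by linarith
    nlinarith
  have h8 : s ≤ (((c + 1) / S + 1) * ((P - 1) + Wm)) / S := by
    rw [le_div_iff₀ hS]; linarith
  calc s ≤ (((c + 1) / S + 1) * ((P - 1) + Wm)) / S := h8
    _ = EL_C l * ((P - 1) + Wm) := by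
      unfold EL_C; rw [← hSdef, ← hcdef]; ring

theorem EL_sum_le {J : Type} (w : Word J) (z : PS J) (b : Bool) (i : Fin (w.n + 1)) :
    ∑ σ : Fin (w.n + 1) → Bool, (if σ i = b then w.W σ z else 0)
      ≤ w.W (fun _ => b) z + w.Wm z := by
  classical
  have h1 : w.W (fun _ => b) z = ∑ σ : Fin (w.n + 1) → Bool,
      (if σ = (fun _ => b) then w.W σ z else 0) := by
    rw [Finset.sum_ite_eq']; simp
  rw [h1]
  unfold Word.Wm
  rw [← Finset.sum_add_distrib]
  refine Finset.sum_le_sum fun σ _ => ?_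
  have hpos : 0 < w.W σ z := Real.exp_pos _
  by_cases hb : σ i = b
  · rw [if_pos hb]
    by_cases hall : σ = fun _ => b
    · rw [if_pos hall]
      have : 0 ≤ (if w.Mixed σ then w.W σ z else 0) := by split_ifs <;> linarith
      linarith
    · have hm : w.Mixed σ := by
        have : ∃ k, σ k ≠ b := by
          by_contra hc
          push Not at hc
          exact hall (funext hc)
        obtain ⟨k, hk⟩ := this
        cases b with
        | true => exact ⟨⟨i, hb⟩, ⟨k, by simpa using hk⟩⟩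
        | false => exact ⟨⟨k, by simpa using hk⟩, ⟨i, hb⟩⟩
      rw [if_neg hall, if_pos hm]; linarith
  · rw [if_neg hb]
    have h2 : 0 ≤ (if w.Mixed σ then w.W σ z else 0) := by split_ifs <;> linarith
    have h3 : 0 ≤ (if σ = (fun _ => b) then w.W σ z else 0) := by split_ifs <;> linarith
    linarith

theorem EL_of (hBF : BF_stmt) : EL_stmt := by
  intro J _ _ l hl
  refine ⟨EL_C l, EL_C_pos hl, ?_⟩
  intro w z hz hH i
  obtain ⟨_, _, hF, hWt, hWf, hFY, hlP, hPc, hWm, hst, hsf, _, _, _⟩ := hBF J w z hz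
  have hst := hst i
  have hsf := hsf i
  rw [hH] at hF hPc hst hsf
  have hP1 : 1 < Real.exp (w.lP z) := Real.one_lt_exp_iff.mpr hlP
  have hprod : w.W (fun _ => true) z * w.W (fun _ => false) z = Real.exp (w.lP z) ^ 2 := by
    rw [hWt, hWf, ← Real.exp_add, ← Real.exp_nat_mul]
    congr 1; push_cast; ring
  have hsum : 2 * Real.cosh (l / 2) = w.W (fun _ => true) z + w.W (fun _ => false) z + w.Wm z := by
    rw [hF, hFY, hWt, hWf, Real.cosh_eq, Real.exp_add, Real.exp_add]; ring
  have ht := EL_sum_le w z true i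
  have hf := EL_sum_le w z false i
  have hpt : 0 < w.W (fun _ => true) z := Real.exp_pos _
  have hpf : 0 < w.W (fun _ => false) z := Real.exp_pos _
  have habs1 : w.ct i z ≤ |w.ct i z| := le_abs_self _
  have habs2 : -w.ct i z ≤ |w.ct i z| := neg_le_abs _
  unfold Word.eps
  rcases le_total (w.W (fun _ => true) z) (w.W (fun _ => false) z) with h | h
  · have := EL_core l _ _ _ _ (1 - w.ct i z) hl hpt h hP1 hPc hprod hWm hsum (by rw [← hst]; exact ht)
    linarith
  · have := EL_core l _ _ _ _ (1 + w.ct i z) hl hpf h hP1 hPc (by rw [mul_comm]; exact hprod) hWm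
      (by rw [hsum]; ring) (by rw [← hsf]; exact hf)
    linarith

end Pool.Agent.helper73.AD
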