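import Pool.Agent.helper73.AD.Basic

/-!
Module KA of project ad: strictness in the key lemma.
-/

namespace Pool.Agent.helper73.AD

open scoped BigOperators Topology

theorem KA_le_zero {a M : ℝ} (h : ∀ u : ℝ, 0 ≤ u → a ≤ M * Real.exp (-u)) : a ≤ 0 := by
  have ht : Filter.Tendsto (fun u : ℝ => M * Real.exp (-u)) Filter.atTop (𝓝 (M * 0)) :=
    (Real.tendsto_exp_neg_atTop_nhds_zero).const_mul M
  rw [mul_zero] at ht
  exact ge_of_tendsto ht ((Filter.eventually_ge_atTop (0 : ℝ)).mono fun u hu => h u hu)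

section

variable {J K : Type} [Fintype J] [DecidableEq J] [Fintype K] [DecidableEq K]

/-- the rotation vanishes if the Hessian vanishes -/
theorem KA_rot_zero (S : Sys J K) (s : Finset K) (ε : ℝ) {z : PS J} (hz : z ∈ Cone J) (x : PS J)
    (h : S.hv (fun k => if k ∈ s then 1 else 0) z x x = 0) :
    S.rot (fun k => if k ∈ s then ε else 0) z x = 0 := by
  refine eq_zero_of_om _ fun y => ?_
  rw [om_rot]
  have h1 : S.hv (fun k => if k ∈ s then ε else 0) z x y
      = ε * S.hv (fun k => if k ∈ s then 1 else 0) z x y := by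
    unfold Sys.hv
    rw [Finset.mul_sum]
    refine Finset.sum_congr rfl fun k _ => ?_
    by_cases hk : k ∈ s
    · simp [hk]
    · simp [hk]
  have h2 := hv_cauchy S (fun k => if k ∈ s then (1 : ℝ) else 0)
    (fun k => by split_ifs <;> norm_num) hz x y
  rw [h, zero_mul] at h2
  have h3 : S.hv (fun k => if k ∈ s then (1 : ℝ) else 0) z x y = 0 := by
    nlinarith [sq_nonneg (S.hv (fun k => if k ∈ s then (1 : ℝ) else 0) z x y)]
  rw [h1, h3, mul_zero]

/-- distance to the limit direction -/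
theorem KA_dist (S : Sys J K) (Φ : SFam S) (ε : ℝ) (hε : ε = 1 ∨ ε = -1) (s : Finset K)
    (v : K → ℝ) (hv : ∀ k, k ∉ s → v k = 0) (T : K → ℝ) (u : ℝ) :
    ‖S.Xv v (Φ.Z (T + u • (fun k => if k ∈ s then ε else 0))) - ε • S.ev v‖
      ≤ (∑ k, |v k| * (Φ.C * Real.exp |T k|)) * Real.exp (-u) := by
  have h1 : S.Xv v (Φ.Z (T + u • (fun k => if k ∈ s then ε else 0))) - ε • S.ev v
      = ∑ k, v k • (S.X k (Φ.Z (T + u • (fun k => if k ∈ s then ε else 0))) - ε • S.e k) := by
    unfold Sys.Xv Sys.ev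
    rw [Finset.smul_sum, ← Finset.sum_sub_distrib]
    refine Finset.sum_congr rfl fun k _ => ?_
    rw [smul_sub, smul_comm]
  rw [h1, Finset.sum_mul]
  refine (norm_sum_le _ _).trans (Finset.sum_le_sum fun k _ => ?_)
  rw [norm_smul, Real.norm_eq_abs, mul_assoc, mul_assoc, ← Real.exp_add]
  by_cases hk : k ∈ s
  · refine mul_le_mul_of_nonneg_left ?_ (abs_nonneg _)
    rcases hε with rfl | rfl
    · have h2 := Φ.ep (T + u • (fun k => if k ∈ s then 1 else 0)) k
      rw [one_smul]
      refine h2.trans (mul_le_mul_of_nonneg_left (Real.exp_le_exp.mpr ?_) Φ.C_pos.le)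
      simp only [Pi.add_apply, Pi.smul_apply, hk, if_true, smul_eq_mul, mul_one]
      have := neg_abs_le (T k)
      linarith
    · have h2 := Φ.em (T + u • (fun k => if k ∈ s then -1 else 0)) k
      rw [neg_smul, one_smul, sub_neg_eq_add]
      refine h2.trans (mul_le_mul_of_nonneg_left (Real.exp_le_exp.mpr ?_) Φ.C_pos.le)
      simp only [Pi.add_apply, Pi.smul_apply, hk, if_true, smul_eq_mul]
      have := le_abs_self (T k)
      linarith
  · rw [hv k hk]; simp

/-- invariance of a linear function along the family -/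
theorem KA_inv (S : Sys J K) (Φ : SFam S) (v κ : K → ℝ)
    (h : ∀ k, κ k ≠ 0 → ∀ z ∈ Cone J, om (S.X k z) (S.ev v) = 0) (T : K → ℝ) (u : ℝ) :
    om (S.ev v) (Φ.Z (T + u • κ)) = om (S.ev v) (Φ.Z T) := by
  have hd : ∀ u : ℝ, HasDerivAt (fun u : ℝ => om (S.ev v) (Φ.Z (T + u • κ))) 0 u := by
    intro u
    have h1 : HasDerivAt (fun u : ℝ => T + u • κ) κ u := by
      have := ((hasDerivAt_id u).smul_const κ).const_add T
      simpa using this
    have h2 := (Φ.dZ (T + u • κ)).comp_hasDerivAt u h1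
    have h3 := (omL (S.ev v)).hasFDerivAt.comp_hasDerivAt u h2
    have h4 : (omL (S.ev v)) ((∑ k, (ContinuousLinearMap.proj k : (K → ℝ) →L[ℝ] ℝ).smulRight
        (S.X k (Φ.Z (T + u • κ)))) κ) = 0 := by
      rw [omL_apply, sum_apply, om_sum_right]
      refine Finset.sum_eq_zero fun k _ => ?_
      rw [ContinuousLinearMap.smulRight_apply, om_smul_right]
      by_cases hk : κ k = 0
      · have : (ContinuousLinearMap.proj k : (K → ℝ) →L[ℝ] ℝ) κ = 0 := hk
        rw [this, zero_mul]
      · rw [om_anti, h k hk _ (Φ.mem _)]; simp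
    rw [h4] at h3
    exact h3
  have h5 := is_const_of_deriv_eq_zero (f := fun u : ℝ => om (S.ev v) (Φ.Z (T + u • κ)))
    (fun u => (hd u).differentiableAt) (fun u => (hd u).deriv) u 0
  simpa using h5

end

theorem KA_of (hDR : DR_stmt) : KA_stmt := by
  intro J K _ _ _ _ S Φ ε hε s T v hv hh
  set κ : K → ℝ := fun k => if k ∈ s then ε else 0 with hκ
  -- constancy
  have hder : ∀ u : ℝ, 0 ≤ u → HasDerivAt (fun u : ℝ => S.Xv v (Φ.Z (T + u • κ))) 0 u := by
    intro u hu
    have h1 := hDR J K S Φ v κ T u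
    rw [hκ, KA_rot_zero S s ε (Φ.mem _) _ (hh u hu), ← hκ] at h1
    exact h1
  have hconst : ∀ u : ℝ, 0 ≤ u → S.Xv v (Φ.Z (T + u • κ)) = S.Xv v (Φ.Z T) := by
    intro u hu
    have h1 := constant_of_has_deriv_right_zero (f := fun u : ℝ => S.Xv v (Φ.Z (T + u • κ)))
      (a := 0) (b := u)
      (fun t ht => (hder t ht.1).continuousAt.continuousWithinAt)
      (fun t ht => (hder t ht.1).hasDerivWithinAt) u ⟨hu, le_rfl⟩
    simpa using h1
  have hlim : S.Xv v (Φ.Z T) = ε • S.ev v := by
    have h1 : ‖S.Xv v (Φ.Z T) - ε • S.ev v‖ ≤ 0 := by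
      refine KA_le_zero (M := ∑ k, |v k| * (Φ.C * Real.exp |T k|)) fun u hu => ?_
      rw [← hconst u hu]
      exact KA_dist S Φ ε hε s v hv T u
    exact sub_eq_zero.mp (norm_le_zero_iff.mp h1)
  -- membership in the null spaces
  have hh0 := hh 0 le_rfl
  rw [zero_smul, add_zero] at hh0
  have hN : ∀ k ∈ s, S.Xv v (Φ.Z T) ∈ S.N k := by
    intro k hk
    refine S.ker k _ (Φ.mem T) _ ?_
    unfold Sys.hv at hh0
    rw [Finset.sum_eq_zero_iff_of_nonneg] at hh0
    · have := hh0 k (Finset.mem_univ k)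
      simpa [hk] using this
    · intro k _
      refine mul_nonneg ?_ (S.psd k _ (Φ.mem T) _)
      show (0 : ℝ) ≤ if k ∈ s then 1 else 0
      split_ifs <;> norm_num
  have hε0 : ε ≠ 0 := by rcases hε with rfl | rfl <;> norm_num
  have hX : ∀ k ∈ s, ∀ z ∈ Cone J, om (S.X k z) (S.ev v) = 0 := by
    intro k hk z hz
    have h1 := S.inv k z hz _ (hN k hk)
    rw [hlim, map_smul, smul_eq_mul] at h1
    rw [om_X]
    exact (mul_eq_zero.mp h1).resolve_left hε0
  -- invariance along the signs of v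
  set sg1 : K → ℝ := fun k => SignType.sign (v k) with hsg
  have hinv : ∀ u : ℝ, om (S.ev v) (Φ.Z (T + u • sg1)) = om (S.ev v) (Φ.Z T) := by
    intro u
    refine KA_inv S Φ v sg1 (fun k hk z hz => ?_) T u
    by_cases hks : k ∈ s
    · exact hX k hks z hz
    · exfalso; apply hk; rw [hsg]; simp [hv k hks]
  have hplus : ∀ u : ℝ, ∑ k, |v k| * Φ.lev k
      - (∑ k, |v k| * (Φ.C * Real.exp |T k|)) * Real.exp (-u)
      ≤ om (S.ev v) (Φ.Z (T + u • sg1)) := by
    intro u
    rw [om_ev_left, Finset.sum_mul, ← Finset.sum_sub_distrib]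
    refine Finset.sum_le_sum fun k _ => ?_
    rcases lt_trichotomy (v k) 0 with hneg | hz | hpos
    · have h1 := Φ.boxm (T + u • sg1) k
      have h2 : sg1 k = -1 := by rw [hsg]; simp [sign_neg hneg]
      have h3 : Real.exp ((T + u • sg1) k) ≤ Real.exp |T k| * Real.exp (-u) := by
        rw [← Real.exp_add]
        refine Real.exp_le_exp.mpr ?_
        simp only [Pi.add_apply, Pi.smul_apply, smul_eq_mul, h2]
        have := le_abs_self (T k)
        linarith
      have h4 := mul_le_mul_of_nonneg_left h3 Φ.C_pos.le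
      rw [abs_of_neg hneg]
      nlinarith
    · rw [hz]; simp
    · have h1 := Φ.boxp (T + u • sg1) k
      have h2 : sg1 k = 1 := by rw [hsg]; simp [sign_pos hpos]
      have h3 : Real.exp (-(T + u • sg1) k) ≤ Real.exp |T k| * Real.exp (-u) := by
        rw [← Real.exp_add]
        refine Real.exp_le_exp.mpr ?_
        simp only [Pi.add_apply, Pi.smul_apply, smul_eq_mul, h2]
        have := neg_abs_le (T k)
        linarith
      have h4 := mul_le_mul_of_nonneg_left h3 Φ.C_pos.le
      rw [abs_of_pos hpos]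
      nlinarith
  have hminus : ∀ u : ℝ, om (S.ev v) (Φ.Z (T + (-u) • sg1)) ≤
      -(∑ k, |v k| * Φ.lev k) + (∑ k, |v k| * (Φ.C * Real.exp |T k|)) * Real.exp (-u) := by
    intro u
    rw [om_ev_left, Finset.sum_mul, ← Finset.sum_neg_distrib, ← Finset.sum_add_distrib]
    refine Finset.sum_le_sum fun k _ => ?_
    rcases lt_trichotomy (v k) 0 with hneg | hz | hpos
    · have h1 := Φ.boxp (T + (-u) • sg1) k
      have h2 : sg1 k = -1 := by rw [hsg]; simp [sign_neg hneg]
      have h3 : Real.exp (-(T + (-u) • sg1) k) ≤ Real.exp |T k| * Real.exp (-u) := by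
        rw [← Real.exp_add]
        refine Real.exp_le_exp.mpr ?_
        simp only [Pi.add_apply, Pi.smul_apply, smul_eq_mul, h2]
        have := neg_abs_le (T k)
        linarith
      have h4 := mul_le_mul_of_nonneg_left h3 Φ.C_pos.le
      rw [abs_of_neg hneg]
      nlinarith
    · rw [hz]; simp
    · have h1 := Φ.boxm (T + (-u) • sg1) k
      have h2 : sg1 k = 1 := by rw [hsg]; simp [sign_pos hpos]
      have h3 : Real.exp ((T + (-u) • sg1) k) ≤ Real.exp |T k| * Real.exp (-u) := by
        rw [← Real.exp_add]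
        refine Real.exp_le_exp.mpr ?_
        simp only [Pi.add_apply, Pi.smul_apply, smul_eq_mul, h2]
        have := le_abs_self (T k)
        linarith
      have h4 := mul_le_mul_of_nonneg_left h3 Φ.C_pos.le
      rw [abs_of_pos hpos]
      nlinarith
  have hsum : ∑ k, |v k| * Φ.lev k ≤ 0 := by
    refine KA_le_zero (M := ∑ k, |v k| * (Φ.C * Real.exp |T k|)) fun u _ => ?_
    have h1 := hplus u
    have h2 := hminus u
    rw [hinv] at h1 h2
    linarith
  have hlev : ∀ k, 0 < Φ.lev k := fun k => (abs_nonneg _).trans_lt (Φ.box T k)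
  funext k
  have hk0 : |v k| * Φ.lev k ≤ 0 := by
    refine le_trans ?_ hsum
    exact Finset.single_le_sum (f := fun k => |v k| * Φ.lev k)
      (fun i _ => mul_nonneg (abs_nonneg _) (hlev i).le) (Finset.mem_univ k)
  have hk1 : |v k| = 0 := by
    have := abs_nonneg (v k)
    have := hlev k
    nlinarith
  simpa using hk1

end Pool.Agent.helper73.AD
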